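import Pool.Agent.Run7.h342.MD.Stm

set_option autoImplicit false

open MvPolynomial

namespace Run7.h890.MD

open Run7.h342.MD

noncomputable section

variable {σ k : Type} [Field k]

/-- the weight of a monomial -/
def wt (w : σ → ℕ) (e : σ →₀ ℕ) : ℕ := ∑ q ∈ e.support, w q * e q

/-- the part of the highest weight -/
def top (w : σ → ℕ) (m : ℕ) (Q : MvPolynomial σ k) : MvPolynomial σ k :=
  ∑ e ∈ Q.support with wt w e = m, monomial e (coeff e Q)

theorem coeff_top (w : σ → ℕ) (m : ℕ) (Q : MvPolynomial σ k) (e : σ →₀ ℕ)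
    (he : wt w e = m) : coeff e (top w m Q) = coeff e Q := by
  classical
  unfold top
  rw [coeff_sum]
  simp only [coeff_monomial]
  by_cases h : e ∈ Q.support
  · rw [Finset.sum_eq_single e]
    · simp
    · intro b _ hb; rw [if_neg hb]
    · intro h2
      exact absurd (Finset.mem_filter.2 ⟨h, he⟩) h2
  · rw [Finset.sum_eq_zero]
    · exact (notMem_support_iff.1 h).symm
    · intro x hx
      rw [if_neg]
      rintro rfl
      exact h (Finset.mem_filter.1 hx).1

/-- the limit `l → 0` -/
theorem limit [Infinite k] (w : σ → ℕ) (m : ℕ) (Q : MvPolynomial σ k)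
    (hm : ∀ e ∈ Q.support, wt w e ≤ m) (v0 v1 : σ → k)
    (h : ∀ l : k, l ≠ 0 → eval (fun q => (l⁻¹) ^ w q * (v0 q + l * v1 q)) Q = 0) :
    eval v0 (top w m Q) = 0 := by
  classical
  let p : Polynomial k := ∑ e ∈ Q.support, Polynomial.C (coeff e Q) *
    (Polynomial.X ^ (m - wt w e) *
      ∏ q ∈ e.support, (Polynomial.C (v0 q) + Polynomial.X * Polynomial.C (v1 q)) ^ e q)
  have hp : ∀ l : k, l ≠ 0 → p.eval l = 0 := by
    intro l hl
    have h1 : p.eval l = l ^ m * eval (fun q => (l⁻¹) ^ w q * (v0 q + l * v1 q)) Q := by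
      rw [eval_eq, Finset.mul_sum]
      simp only [p, Polynomial.eval_finsetSum, Polynomial.eval_mul, Polynomial.eval_C,
        Polynomial.eval_pow, Polynomial.eval_X, Polynomial.eval_prod, Polynomial.eval_add]
      refine Finset.sum_congr rfl fun e he => ?_
      have h2 : ∏ q ∈ e.support, ((l⁻¹) ^ w q * (v0 q + l * v1 q)) ^ e q =
          (l⁻¹) ^ wt w e * ∏ q ∈ e.support, (v0 q + l * v1 q) ^ e q := by
        rw [wt, ← Finset.prod_pow_eq_pow_sum, ← Finset.prod_mul_distrib]
        refine Finset.prod_congr rfl fun q _ => ?_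
        rw [mul_pow, ← pow_mul]
      have h3 : l ^ (m - wt w e) = l ^ m * (l⁻¹) ^ wt w e := by
        rw [inv_pow, ← div_eq_mul_inv, eq_div_iff (pow_ne_zero _ hl), ← pow_add,
          Nat.sub_add_cancel (hm e he)]
      rw [h2, h3]
      ring
    rw [h1, h l hl, mul_zero]
  have hp0 : p = 0 := by
    by_contra hne
    have hfin : {l : k | p.eval l = 0}.Finite := by
      have := (p.roots.toFinset).finite_toSet
      refine this.subset fun l hl => ?_
      simp only [Finset.mem_coe, Multiset.mem_toFinset, Polynomial.mem_roots hne]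
      exact hl
    have hinf : {l : k | p.eval l = 0}.Infinite := by
      have h2 : ({0}ᶜ : Set k).Infinite := Set.Finite.infinite_compl (Set.finite_singleton 0)
      exact h2.mono fun l hl => hp l hl
    exact hinf hfin
  have h0 : p.eval 0 = 0 := by rw [hp0, Polynomial.eval_zero]
  rw [← h0]
  simp only [p, Polynomial.eval_finsetSum, Polynomial.eval_mul, Polynomial.eval_C,
    Polynomial.eval_pow, Polynomial.eval_X, Polynomial.eval_prod, Polynomial.eval_add, zero_mul, add_zero]
  unfold top
  rw [map_sum, Finset.sum_filter]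
  refine Finset.sum_congr rfl fun e he => ?_
  split_ifs with hw
  · rw [eval_monomial, hw, Nat.sub_self, pow_zero, one_mul]
    rfl
  · have : m - wt w e ≠ 0 := by
      have := hm e he
      omega
    rw [zero_pow this]
    simp

theorem t_INCA (n d : ℕ) (k : Type) [Field k] [IsAlgClosed k] [CharZero k] (_hn : 3 ≤ n)
    (hd : 2 ≤ d) : S_INCA n d k := by
  classical
  intro i₀ s₀ hs₀ Q hQ hvan
  by_contra hne
  have hinf : Infinite k := IsAlgClosed.instInfinite
  -- the symbols
  let rep : Fin n → Sym (Fin n) d := fun i => Sym.replicate d i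
  have hrep : ∀ i, i ≠ i₀ → rep i ≠ s₀ := by
    intro i hi h
    have h1 : (rep i : Multiset (Fin n)) = Multiset.replicate d i₀ := by rw [h, hs₀]
    have h2 : Multiset.replicate d i = Multiset.replicate d i₀ := h1
    have h3 : i ∈ Multiset.replicate d i₀ := by
      rw [← h2, Multiset.mem_replicate]
      exact ⟨by omega, rfl⟩
    exact hi (Multiset.mem_replicate.1 h3).2
  let w : Ix n d → ℕ := fun q => if q.1 ≠ i₀ ∧ (q.2 = s₀ ∨ q.2 = rep q.1) then 1 else 0
  -- the top weight
  obtain ⟨e₀, he₀, hmax⟩ := Finset.exists_max_image Q.support (wt w) (support_nonempty.2 hne)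
  set m := wt w e₀ with hm
  -- the leading part vanishes where the `rep` coordinates are nonzero
  have key : ∀ y : Ix n d → k, (∀ i, i ≠ i₀ → y (i, rep i) ≠ 0) → eval y (top w m Q) = 0 := by
    intro y hy
    have ht : ∀ i, ∃ z : k, z ^ d = if i = i₀ then 1 else -(y (i, s₀)) / y (i, rep i) := fun i =>
      IsAlgClosed.exists_pow_nat_eq _ (by omega)
    choose t' ht' using ht
    let t : Fin n → k := fun i => if i = i₀ then 1 else t' i
    have t0 : t i₀ = 1 := if_pos rfl
    have t1 : ∀ i, i ≠ i₀ → y (i, s₀) + y (i, rep i) * t i ^ d = 0 := by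
      intro i hi
      have h1 : t i = t' i := if_neg hi
      rw [h1, ht', if_neg hi]
      field_simp [hy i hi]
      ring
    let mon : Sym (Fin n) d → k := fun s => ((s : Multiset (Fin n)).map t).prod
    have mon0 : mon s₀ = 1 := by
      change ((s₀ : Multiset (Fin n)).map t).prod = 1
      rw [hs₀, Multiset.map_replicate, Multiset.prod_replicate, t0, one_pow]
    have monr : ∀ i, mon (rep i) = t i ^ d := by
      intro i
      change ((Multiset.replicate d i).map t).prod = t i ^ d
      rw [Multiset.map_replicate, Multiset.prod_replicate]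
    let R : Fin n → k := fun i => ∑ s ∈ ((Finset.univ.erase s₀).erase (rep i)), y (i, s) * mon s
    let v1 : Ix n d → k := fun q => if q.1 ≠ i₀ ∧ q.2 = s₀ then - R q.1 else 0
    refine limit w m Q (fun e he => hmax e he) y v1 fun l hl => ?_
    set u : Ix n d → k := fun q => (l⁻¹) ^ w q * (y q + l * v1 q) with hu
    let c : Ix n d → k := fun q => if q = (i₀, s₀) then
      -∑ s ∈ Finset.univ.erase s₀, u (i₀, s) * mon s else u q
    have hc : ¬ Nondeg c := by
      intro hnd
      have h1 : ev c t = 0 := by
        funext i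
        change ∑ s : Sym (Fin n) d, c (i, s) * mon s = 0
        rw [← Finset.add_sum_erase _ _ (Finset.mem_univ s₀), mon0, mul_one]
        by_cases hi : i = i₀
        · subst hi
          have h2 : c (i, s₀) = -∑ s ∈ Finset.univ.erase s₀, u (i, s) * mon s := if_pos rfl
          have h3 : ∑ s ∈ Finset.univ.erase s₀, c (i, s) * mon s =
              ∑ s ∈ Finset.univ.erase s₀, u (i, s) * mon s := by
            refine Finset.sum_congr rfl fun s hs => ?_
            have h4 : c (i, s) = u (i, s) := if_neg fun h => (Finset.mem_erase.1 hs).1 (congrArg Prod.snd h)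
            rw [h4]
          rw [h2, h3]
          ring
        · have hcu : ∀ s, c (i, s) = u (i, s) := fun s => if_neg fun h => hi (congrArg Prod.fst h)
          have hmem : rep i ∈ Finset.univ.erase s₀ := Finset.mem_erase.2 ⟨hrep i hi, Finset.mem_univ _⟩
          rw [← Finset.add_sum_erase _ _ hmem, monr]
          have h2 : c (i, s₀) = l⁻¹ * (y (i, s₀) - l * R i) := by
            rw [hcu]
            have hw : w (i, s₀) = 1 := if_pos ⟨hi, Or.inl rfl⟩
            have hv : v1 (i, s₀) = - R i := if_pos ⟨hi, rfl⟩
            rw [hu]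
            simp only [hw, hv]
            ring
          have h3 : c (i, rep i) = l⁻¹ * y (i, rep i) := by
            rw [hcu]
            have hw : w (i, rep i) = 1 := if_pos ⟨hi, Or.inr rfl⟩
            have hv : v1 (i, rep i) = 0 := if_neg fun h => hrep i hi h.2
            rw [hu]
            simp only [hw, hv]
            ring
          have h4 : ∑ s ∈ ((Finset.univ.erase s₀).erase (rep i)), c (i, s) * mon s = R i := by
            refine Finset.sum_congr rfl fun s hs => ?_
            have hs1 := (Finset.mem_erase.1 hs).1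
            have hs2 := (Finset.mem_erase.1 (Finset.mem_erase.1 hs).2).1
            rw [hcu]
            have hw : w (i, s) = 0 := if_neg fun h => h.2.elim hs2 hs1
            have hv : v1 (i, s) = 0 := if_neg fun h => hs2 h.2
            rw [hu]
            simp only [hw, hv]
            ring
          rw [h2, h3, h4]
          have h5 := t1 i hi
          have h6 : l⁻¹ * (y (i, s₀) - l * R i) + (l⁻¹ * y (i, rep i) * t i ^ d + R i) =
              l⁻¹ * (y (i, s₀) + y (i, rep i) * t i ^ d) := by
            field_simp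
            ring
          rw [h6, h5, mul_zero]
      have h2 := congrFun (hnd t h1) i₀
      rw [t0] at h2
      exact one_ne_zero h2
    have h1 := hvan c hc
    rw [← h1]
    refine eval₂Hom_congr' rfl (fun q hq _ => ?_) rfl
    have h2 : q ≠ (i₀, s₀) := fun h => hQ (h ▸ hq)
    exact (if_neg h2).symm
  -- so it is zero
  have hz : top w m Q * ∏ i ∈ Finset.univ.erase i₀, X (i, rep i) = 0 := by
    apply MvPolynomial.funext
    intro y
    rw [map_mul, map_prod, map_zero]
    by_cases hy : ∀ i, i ≠ i₀ → y (i, rep i) ≠ 0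
    · rw [key y hy, zero_mul]
    · push Not at hy
      obtain ⟨i, hi, hyi⟩ := hy
      rw [Finset.prod_eq_zero (Finset.mem_erase.2 ⟨hi, Finset.mem_univ i⟩), mul_zero]
      rw [eval_X]; exact hyi
  have htop : top w m Q = 0 := by
    rcases mul_eq_zero.1 hz with h | h
    · exact h
    · exfalso
      rw [Finset.prod_eq_zero_iff] at h
      obtain ⟨i, _, hi⟩ := h
      exact X_ne_zero _ hi
  have h1 := coeff_top w m Q e₀ hm.symm
  rw [htop, coeff_zero] at h1
  exact (mem_support_iff.1 he₀) h1.symm

end

end Run7.h890.MD
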